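import Pool.Agent.X111.HO.Hom
import Pool.Agent.X111.FL.Main

set_option autoImplicit false
set_option linter.unusedSectionVars false

/-! Moments of homogeneous functions of the values of zeta at finitely many points of a line near the critical line, all orders,
off small sets of large values. -/

namespace Pool.Agent.X111.HO

open MeasureTheory ProbabilityTheory Filter Topology
open Pool.Agent.Y755
open Pool.Agent.Y753.NL
open Pool.Agent.Y753.SHR
open Pool.Agent.H306R2 (aF aF_pos)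
open Pool.Agent.X111.JD (zc zc_norm zc_cont)
open Pool.Agent.X111.FL

/-- the exponents in use -/
def RK (K : Set ℝ) : Set ℝ := {r | 0 < r ∧ ∃ k ∈ K, ∃ (n N : ℕ) (p : Fin n → ℕ) (i : Fin (n + 1)), r = kv k N p i}

lemma RK_countable {K : Set ℝ} (hK : K.Countable) : (RK K).Countable := by
  refine (hK.biUnion fun k _ => Set.countable_range fun x : (Σ n : ℕ, (ℕ × (Fin n → ℕ)) × Fin (n + 1)) => kv k x.2.1.1 x.2.1.2 x.2.2).mono ?_
  rintro r ⟨-, k, hk, n, N, p, i, rfl⟩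
  exact Set.mem_biUnion hk ⟨⟨n, ((N, p), i)⟩, rfl⟩

/-- the sets -/
theorem exD {δ : ℝ → ℝ} (hδ : Tendsto δ atTop (𝓝 0)) (hδL : Tendsto (fun T => δ T * Real.log T) atTop atTop) {c : ℝ} (hc : 0 ≤ c)
    {S K : Set ℝ} (hS : S.Countable) (h0S : (0:ℝ) ∈ S) (hK : K.Countable) (hK0 : ∀ k ∈ K, 0 < k) (hKc : ∀ k ∈ K, k ≤ 2 ∨ 2 + 2 * c ≤ k) :
    ∃ E : ℝ → Set ℝ, (∀ T, MeasurableSet (E T) ∧ E T ⊆ Set.Icc 0 T ∧ ∀ t ∈ E T, ∃ a ∈ S, (δ T) ^ (-(2 + c)) < za (δ T) a t) ∧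
      Tendsto (fun T => (volume (E T)).toReal / (T * (δ T) ^ (4 + 4 * c))) atTop (𝓝 0) ∧
      ∀ k ∈ K, MH k δ (fun T => Set.Icc 0 T \ E T) S := by
  classical
  have _ := h0S
  obtain ⟨δ', hδ'⟩ : ∃ δ' : ℝ → ℝ, δ' = fun T => if 0 < δ T ∧ δ T < 1 / 2 then δ T else 1 / 4 := ⟨_, rfl⟩
  have hn : ∀ T, 0 < δ' T ∧ δ' T < 1 / 2 := by
    intro T
    rw [hδ']
    dsimp only
    split_ifs with h
    · exact h
    · norm_num
  have he : ∀ᶠ T in atTop, δ T = δ' T := by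
    filter_upwards [pos_path hδL, hδ.eventually (gt_mem_nhds (show (0:ℝ) < 1 / 2 by norm_num))] with T h1 h2
    rw [hδ']
    dsimp only
    rw [if_pos ⟨h1, h2⟩]
  obtain ⟨E, w, hE, hvol, hw, hm⟩ := mixed_small Pool.Agent.Y901.SHR.done Pool.Agent.Y753.SHR.star (hδ.congr' he)
    (hδL.congr' (he.mono fun T hT => by rw [hT])) hc (S := S) (R := RK K) hS (RK_countable hK) (fun r hr => hr.1)
  refine ⟨fun T => if δ T = δ' T then E T else ∅, fun T => ?_, ?_, fun k hk => ?_⟩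
  · dsimp only
    split_ifs with h
    · exact ⟨(hE T).1, (hE T).2.1, fun t ht => by rw [h]; exact (hE T).2.2.2 t ht⟩
    · exact ⟨MeasurableSet.empty, Set.empty_subset _, fun t ht => ht.elim⟩
  · refine hvol.congr' ?_
    filter_upwards [he] with T hT
    rw [if_pos hT, hT]
  · intro b hb n h hh G
    have hk0 := hK0 k hk
    have h1 := lawD hk0 hn (D := fun T => Set.Icc 0 T \ E T) (fun T => ⟨measurableSet_Icc.diff (hE T).1, Set.sdiff_subset⟩) (fun T => (hE T).2.2.1) hw b h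
      (fun N p q hN hp hq => ?_) G
    · refine h1.congr' ?_
      filter_upwards [he] with T hT
      rw [if_pos hT, hT]
    · have hR : ∀ p : Fin n → ℕ, ((∑ j, p j : ℕ) : ℝ) < k * N → ∀ i, kv k N p i ∈ RK K := fun p hp i =>
        ⟨kv_pos hN hp i, k, hk, n, N, p, i, rfl⟩
      have hP : ∀ p : Fin n → ℕ, ∀ i, b + pv h p i ∈ S := by
        intro p i
        unfold pv
        refine Fin.cases ?_ (fun j => ?_) i
        · rw [Fin.cons_zero, add_zero]
          exact hb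
        · rw [Fin.cons_succ]
          split_ifs
          · rw [add_zero]; exact hb
          · exact hh j
      have h2 := (hm (n + 1) (n + 1) (kv k N p) (fun i => b + pv h p i) (kv k N q) (fun i => b + pv h q i) k (by omega) (by omega)
        (kv_total k N p) (kv_total k N q) (hR p hp) (hP p) (hR q hq) (hP q)).1 (by
          rcases hKc k hk with h3 | h3
          · exact Or.inl h3
          · exact Or.inr (by linarith))
      simp_rw [add_sub_add_left_eq_sub] at h2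
      exact h2

/-- **Homogeneous functions, all orders.** -/
theorem mainE {δ : ℝ → ℝ} (hδ : Tendsto δ atTop (𝓝 0)) (hδL : Tendsto (fun T => δ T * Real.log T) atTop atTop) {c : ℝ} (hc : 0 ≤ c)
    {S K : Set ℝ} (hS : S.Countable) (h0S : (0:ℝ) ∈ S) (hK : K.Countable) (hK0 : ∀ k ∈ K, 0 < k) (hKc : ∀ k ∈ K, k ≤ 2 ∨ 2 + 2 * c ≤ k) :
    ∃ E : ℝ → Set ℝ, (∀ T, MeasurableSet (E T) ∧ E T ⊆ Set.Icc 0 T ∧ ∀ t ∈ E T, ∃ a ∈ S, (δ T) ^ (-(2 + c)) < za (δ T) a t) ∧
      Tendsto (fun T => (volume (E T)).toReal / (T * (δ T) ^ (4 + 4 * c))) atTop (𝓝 0) ∧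
      ∀ k ∈ K, ∀ (n : ℕ) (a : Fin n → ℝ), (∀ j, a j ∈ S) → ∀ F : (Fin n → ℂ) → ℝ, Continuous F →
        (∀ (c : ℂ) (v : Fin n → ℂ), F (fun j => c * v j) = ‖c‖ ^ (2 * k) * F v) →
        Tendsto (fun T => (2 * δ T) ^ (k ^ 2) / T * ∫ t in Set.Icc 0 T \ E T, F (fun j => zc (δ T) (a j) t)) atTop
          (𝓝 (aF k * ∫ ω, F (fun j => fi k ω (Complex.I * a j)) ∂PG)) := by
  obtain ⟨E, hE, hvol, hM⟩ := exD hδ hδL hc hS h0S hK hK0 hKc
  refine ⟨E, hE, hvol, fun k hk n a ha F hF hom => ?_⟩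
  simp_rw [fi_line]
  exact homogD (hK0 k hk) hδ hδL (fun T => ⟨measurableSet_Icc.diff (hE T).1, Set.sdiff_subset⟩) (hM k hk) h0S a ha hF hom

end Pool.Agent.X111.HO
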