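import Pool.Agent.X111.HO.Main
import Pool.Agent.X111.FZ.Sub

set_option autoImplicit false
set_option linter.unusedSectionVars false

/-! Lower bounds for moments of homogeneous functions and of maxima, all orders, on the whole interval. -/

namespace Pool.Agent.X111.HO

open MeasureTheory ProbabilityTheory Filter Topology
open Pool.Agent.Y755
open Pool.Agent.Y753.NL
open Pool.Agent.Y753.SHR
open Pool.Agent.H306R2 (aF aF_pos)
open Pool.Agent.X111.JD (zc zc_norm zc_cont)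
open Pool.Agent.X111.FL
open Pool.Agent.X111.FZ (LM LM_int)

/-- the lower bound for a countable set of shifts -/
theorem lowG {k : ℝ} (hk : 0 < k) {δ : ℝ → ℝ} (hδ : Tendsto δ atTop (𝓝 0)) (hδL : Tendsto (fun T => δ T * Real.log T) atTop atTop)
    {n : ℕ} (a : Fin n → ℝ) {F : (Fin n → ℂ) → ℝ} (hF : Continuous F)
    (hom : ∀ (c : ℂ) (v : Fin n → ℂ), F (fun j => c * v j) = ‖c‖ ^ (2 * k) * F v)
    {g : ℝ → ℝ → ℝ} (hg : ∀ᶠ T in atTop, IntegrableOn (g T) (Set.Icc 0 T)) (hg0 : ∀ᶠ T in atTop, ∀ t, 0 ≤ g T t)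
    (hle : ∀ᶠ T in atTop, ∀ t, F (fun j => zc (δ T) (a j) t) ≤ g T t) {ε : ℝ} (hε : 0 < ε) :
    ∀ᶠ T in atTop, aF k * ∫ ω, F (fun j => fi k ω (Complex.I * a j)) ∂PG - ε ≤ (2 * δ T) ^ (k ^ 2) / T * ∫ t in Set.Icc 0 T, g T t := by
  obtain ⟨S, hS⟩ : ∃ S : Set ℝ, S = insert 0 (Set.range a) := ⟨_, rfl⟩
  have hSc : S.Countable := by rw [hS]; exact (Set.countable_range a).insert _
  obtain ⟨E, hE, -, hm⟩ := mainE hδ hδL (c := 0) le_rfl (S := S) (K := {k}) hSc (by rw [hS]; exact Set.mem_insert _ _) (Set.countable_singleton k)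
    (fun x hx => by rw [Set.mem_singleton_iff] at hx; rw [hx]; exact hk)
    (fun x _ => by
      rcases le_total x 2 with h | h
      · exact Or.inl h
      · exact Or.inr (by linarith))
  have h1 := hm k rfl n a (fun j => by rw [hS]; exact Set.mem_insert_of_mem _ ⟨j, rfl⟩) F hF hom
  filter_upwards [h1.eventually (lt_mem_nhds (show aF k * ∫ ω, F (fun j => fi k ω (Complex.I * a j)) ∂PG - ε <
    aF k * ∫ ω, F (fun j => fi k ω (Complex.I * a j)) ∂PG by linarith)), hg, hg0, hle, pos_path hδL,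
    hδ.eventually (gt_mem_nhds (show (0:ℝ) < 1 / 2 by norm_num)), eventually_gt_atTop 0] with T h2 h3 h4 h5 h6 h7 hT
  refine h2.le.trans ?_
  refine mul_le_mul_of_nonneg_left ?_ (by positivity)
  have iF : IntegrableOn (fun t => F (fun j => zc (δ T) (a j) t)) (Set.Icc 0 T) :=
    (hF.comp (continuous_pi fun j => zc_cont h7 (a j))).continuousOn.integrableOn_compact isCompact_Icc
  calc ∫ t in Set.Icc 0 T \ E T, F (fun j => zc (δ T) (a j) t) ≤ ∫ t in Set.Icc 0 T \ E T, g T t :=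
        integral_mono (iF.mono_set Set.sdiff_subset) (h3.mono_set Set.sdiff_subset) h5
    _ ≤ ∫ t in Set.Icc 0 T, g T t := setIntegral_mono_set h3 (Eventually.of_forall h4) (Eventually.of_forall fun t ht => ht.1)

lemma zc_joint {δ : ℝ} (hδ : δ < 1 / 2) : Continuous fun x : ℝ × ℝ => zc δ x.2 x.1 := by
  have h1 : Continuous fun t : ℝ => riemannZeta (1 / 2 + δ + t * Complex.I) := zl_cont hδ
  have h2 : Continuous fun x : ℝ × ℝ => x.1 + x.2 * δ := by fun_prop
  exact h1.comp h2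

lemma sup_cont {δ : ℝ} (hδ : δ < 1 / 2) (H : ℝ) : Continuous fun t => ⨆ a : Set.Icc (-H) H, ‖zc δ a t‖ := by
  have h1 := (isCompact_Icc (a := -H) (b := H)).continuous_sSup (f := fun t a => ‖zc δ a t‖) (by
    exact (zc_joint hδ).norm)
  refine h1.congr fun t => ?_
  rw [sSup_image']

lemma sup_bdd {δ : ℝ} (hδ : δ < 1 / 2) (H t : ℝ) : BddAbove (Set.range fun a : Set.Icc (-H) H => ‖zc δ a t‖) := by
  have h1 : Continuous fun a : ℝ => ‖zc δ a t‖ := ((zc_joint hδ).comp (by fun_prop : Continuous fun a : ℝ => (t, a))).norm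
  have h2 := (isCompact_Icc (a := -H) (b := H)).bddAbove_image h1.continuousOn
  rwa [Set.image_eq_range] at h2

lemma norm_le_sup {δ : ℝ} (hδ : δ < 1 / 2) {H : ℝ} {n : ℕ} (x : Fin n → Set.Icc (-H) H) (t : ℝ) :
    ‖fun j => zc δ (x j : ℝ) t‖ ≤ ⨆ a : Set.Icc (-H) H, ‖zc δ a t‖ := by
  refine (pi_norm_le_iff_of_nonneg (Real.iSup_nonneg fun a => norm_nonneg _)).mpr fun j => ?_
  exact le_ciSup (sup_bdd hδ H t) (x j)

/-- the maxima over dense sequences -/
lemma sup_dense {H : ℝ} (u : C(Set.Icc (-H) H, ℂ)) {q : ℕ → Set.Icc (-H) H} (hq : DenseRange q) :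
    Tendsto (fun n : ℕ => ‖fun j : Fin n => u (q j)‖) atTop (𝓝 ‖u‖) := by
  have hle : ∀ n : ℕ, ‖fun j : Fin n => u (q j)‖ ≤ ‖u‖ := fun n =>
    (pi_norm_le_iff_of_nonneg (norm_nonneg _)).mpr fun j => u.norm_coe_le_norm _
  rw [Metric.tendsto_atTop]
  intro ε hε
  have hne : Nonempty (Set.Icc (-H) H) := ⟨q 0⟩
  obtain ⟨x, hx⟩ : ∃ x, ‖u x‖ = ‖u‖ := by
    obtain ⟨x, -, hx⟩ := isCompact_univ.exists_isMaxOn Set.univ_nonempty (f := fun x => ‖u x‖) u.continuous.norm.continuousOn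
    exact ⟨x, le_antisymm (u.norm_coe_le_norm x) ((ContinuousMap.norm_le u (norm_nonneg _)).mpr fun y => hx (Set.mem_univ y))⟩
  have hopen : IsOpen {y : Set.Icc (-H) H | ‖u‖ - ε < ‖u y‖} := isOpen_lt continuous_const u.continuous.norm
  obtain ⟨y, hyq⟩ := hq.exists_mem_open hopen ⟨x, by show ‖u‖ - ε < ‖u x‖; rw [hx]; linarith⟩
  refine ⟨y + 1, fun n hn => ?_⟩
  rw [Real.dist_eq, abs_sub_lt_iff]
  constructor
  · linarith [hle n]
  · have h1 : ‖u (q y)‖ ≤ ‖fun j : Fin n => u (q j)‖ := norm_le_pi_norm (fun j : Fin n => u (q j)) ⟨y, by omega⟩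
    have h2 : ‖u‖ - ε < ‖u (q y)‖ := hyq
    linarith

/-- **Lower bounds for the moments of the maxima, all orders.** -/
theorem lowmax {k : ℝ} (hk : 0 < k) {δ : ℝ → ℝ} (hδ : Tendsto δ atTop (𝓝 0)) (hδL : Tendsto (fun T => δ T * Real.log T) atTop atTop)
    {H : ℝ} (hH : 0 ≤ H) {ε : ℝ} (hε : 0 < ε) :
    ∀ᶠ T in atTop, aF k * LM k H - ε ≤ (2 * δ T) ^ (k ^ 2) / T * ∫ t in Set.Icc 0 T, (⨆ a : Set.Icc (-H) H, ‖zc (δ T) a t‖) ^ (2 * k) := by
  have hne : Nonempty (Set.Icc (-H) H) := ⟨⟨0, by constructor <;> linarith⟩⟩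
  obtain ⟨q, hq⟩ := TopologicalSpace.exists_dense_seq (Set.Icc (-H) H)
  have ha := aF_pos hk
  -- the limit of the finite maxima
  have hlim : Tendsto (fun n : ℕ => ∫ ω, ‖fun j : Fin n => fi k ω (Complex.I * ((q j : ℝ) : ℂ))‖ ^ (2 * k) ∂PG) atTop (𝓝 (LM k H)) := by
    unfold Pool.Agent.X111.FZ.LM
    refine tendsto_integral_of_dominated_convergence (fun ω => ‖pth H (fi k ω)‖ ^ (2 * k)) (fun n => ?_) (LM_int hk hH) (fun n => ?_) ?_
    · have co : Continuous (fun v : EE (Fin n) => v.ofLp) := PiLp.continuous_ofLp 2 (fun _ : Fin n => ℂ)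
      have cc : Continuous (fun v : EE (Fin n) => ‖fun j => Complex.exp (v.ofLp j)‖ ^ (2 * k)) :=
        (continuous_pi fun j => Complex.continuous_exp.comp ((continuous_apply j).comp co)).norm.rpow_const fun _ => Or.inr (by positivity)
      have h1 := (cc.measurable.comp_aemeasurable (lgv_meas k (fun j : Fin n => (q j : ℝ)))).aestronglyMeasurable
      refine h1.congr (Eventually.of_forall fun ω => ?_)
      show ‖fun j => Complex.exp (lgv k (fun j : Fin n => (q j : ℝ)) ω j)‖ ^ (2 * k) = ‖fun j : Fin n => fi k ω (Complex.I * ((q j : ℝ) : ℂ))‖ ^ (2 * k)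
      congr 2
      funext j
      rw [fi_line k (fun j : Fin n => (q j : ℝ)) ω j]
    · filter_upwards [Gd_ae] with ω hω
      rw [Real.norm_of_nonneg (Real.rpow_nonneg (norm_nonneg _) _)]
      refine Real.rpow_le_rpow (norm_nonneg _) ?_ (by positivity)
      refine (pi_norm_le_iff_of_nonneg (norm_nonneg _)).mpr fun j => ?_
      rw [← pth_fi k hω H (q j)]
      exact (pth H (fi k ω)).norm_coe_le_norm _
    · filter_upwards [Gd_ae] with ω hω
      have h1 := (sup_dense (pth H (fi k ω)) hq).rpow_const (p := 2 * k) (Or.inr (by positivity))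
      simp_rw [pth_fi k hω H] at h1
      exact h1
  have h2 := hlim.const_mul (aF k)
  obtain ⟨n, hn⟩ := (h2.eventually (lt_mem_nhds (show aF k * LM k H - ε / 2 < aF k * LM k H by linarith))).exists
  have h3 := lowG hk hδ hδL (fun j : Fin n => (q j : ℝ)) (F := fun v => ‖v‖ ^ (2 * k)) (continuous_norm.rpow_const fun _ => Or.inr (by positivity))
    (fun c v => by
      have e1 : (fun j => c * v j) = c • v := rfl
      rw [e1, norm_smul, Real.mul_rpow (norm_nonneg _) (norm_nonneg _)])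
    (g := fun T t => (⨆ a : Set.Icc (-H) H, ‖zc (δ T) a t‖) ^ (2 * k)) ?_ ?_ ?_ (ε := ε / 2) (by positivity)
  · filter_upwards [h3] with T hT
    linarith
  · filter_upwards [hδ.eventually (gt_mem_nhds (show (0:ℝ) < 1 / 2 by norm_num))] with T hT
    exact ((sup_cont hT H).rpow_const fun _ => Or.inr (by positivity)).continuousOn.integrableOn_compact isCompact_Icc
  · exact Eventually.of_forall fun T t => Real.rpow_nonneg (Real.iSup_nonneg fun a => norm_nonneg _) _
  · filter_upwards [hδ.eventually (gt_mem_nhds (show (0:ℝ) < 1 / 2 by norm_num))] with T hT t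
    exact Real.rpow_le_rpow (norm_nonneg _) (norm_le_sup hT (fun j : Fin n => q j) t) (by positivity)

end Pool.Agent.X111.HO
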