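import Pool.Agent.X111.HO.Law

set_option autoImplicit false
set_option linter.unusedSectionVars false

/-! Moments of homogeneous functions of the values of zeta at finitely many points of a line near the critical line, on subsets. -/

namespace Pool.Agent.X111.HO

open MeasureTheory ProbabilityTheory Filter Topology
open Pool.Agent.Y755
open Pool.Agent.Y753.NL
open Pool.Agent.Y753.SHR
open Pool.Agent.H306R2 (aF aF_pos)
open Pool.Agent.X111.JD (zc zc_norm zc_cont)
open Pool.Agent.X111.FL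

/-- the law of the ratios on the sets `D T`, for all base points in `S` -/
def MH (k : ℝ) (δ : ℝ → ℝ) (D : ℝ → Set ℝ) (S : Set ℝ) : Prop := ∀ b ∈ S, ∀ (n : ℕ) (h : Fin n → ℝ), (∀ j, b + h j ∈ S) →
  ∀ G : BoundedContinuousFunction (Fin n → ℂ) ℝ,
    Tendsto (fun T => (2 * δ T) ^ (k ^ 2) / T * ∫ t in D T, za (δ T) b t ^ (2 * k) * G (fun j => zc (δ T) (b + h j) t / zc (δ T) b t)) atTop
      (𝓝 (aF k * ∫ ω, G (fun j => Complex.exp (lgv k h ω j)) ∂PG))

/-- the test function of large ratios, as a function of a vector -/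
noncomputable def ps1 (K : ℕ) : BoundedContinuousFunction (Fin 1 → ℂ) ℝ :=
  (ps K).compContinuous ⟨fun v => v 0, continuous_apply 0⟩

lemma ps1_lim (k : ℝ) (h : Fin 1 → ℝ) : Tendsto (fun K : ℕ => ∫ ω, ps1 K (fun j => Complex.exp (lgv k h ω j)) ∂PG) atTop (𝓝 0) := by
  have e1 : (0:ℝ) = ∫ _ω : ℕ → ℝ × ℝ, (0:ℝ) ∂PG := by simp
  rw [e1]
  refine tendsto_integral_of_dominated_convergence (fun _ => 1) (fun K => ?_)
    (integrable_const _) (fun K => Eventually.of_forall fun v => ?_) (Eventually.of_forall fun ω => ?_)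
  · have co : Continuous (fun v : EE (Fin 1) => v.ofLp) := PiLp.continuous_ofLp 2 (fun _ : Fin 1 => ℂ)
    have cc : Continuous (fun v : EE (Fin 1) => ps1 K (fun j => Complex.exp (v.ofLp j))) :=
      (ps1 K).continuous.comp (continuous_pi fun j => Complex.continuous_exp.comp ((continuous_apply j).comp co))
    exact (cc.measurable.comp_aemeasurable (lgv_meas k h)).aestronglyMeasurable
  · show ‖ps K _‖ ≤ 1
    rw [Real.norm_of_nonneg (ps_nn _ _)]
    exact ps_le _ _
  · obtain ⟨K0, hK0⟩ := exists_nat_ge (2 / ‖Complex.exp (lgv k h ω 0)‖)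
    refine tendsto_const_nhds.congr' ?_
    filter_upwards [eventually_ge_atTop K0] with K hK
    have h1 : (K0 : ℝ) ≤ K := by exact_mod_cast hK
    have h2 : 0 < ‖Complex.exp (lgv k h ω 0)‖ := norm_pos_iff.mpr (Complex.exp_ne_zero _)
    have h3 : 2 ≤ K * ‖Complex.exp (lgv k h ω 0)‖ := by
      rw [div_le_iff₀ h2] at hK0
      nlinarith
    show (0:ℝ) = ps K (Complex.exp (lgv k h ω 0))
    rw [ps_apply, max_eq_left (by linarith), min_eq_right (by norm_num)]

/-- **Homogeneous functions of finitely many values.** -/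
theorem homogD {k : ℝ} (hk : 0 < k) {δ : ℝ → ℝ} (hδ : Tendsto δ atTop (𝓝 0))
    (hδL : Tendsto (fun T => δ T * Real.log T) atTop atTop) {D : ℝ → Set ℝ} (hD : ∀ T, MeasurableSet (D T) ∧ D T ⊆ Set.Icc 0 T) {S : Set ℝ}
    (hS : MH k δ D S) (h0S : (0:ℝ) ∈ S) {n : ℕ} (h : Fin n → ℝ) (hhS : ∀ j, h j ∈ S) {F : (Fin n → ℂ) → ℝ} (hF : Continuous F)
    (hom : ∀ (c : ℂ) (v : Fin n → ℂ), F (fun j => c * v j) = ‖c‖ ^ (2 * k) * F v) :
    Tendsto (fun T => (2 * δ T) ^ (k ^ 2) / T * ∫ t in D T, F (fun j => zc (δ T) (h j) t)) atTop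
      (𝓝 (aF k * ∫ ω, F (fun j => Complex.exp (lgv k h ω j)) ∂PG)) := by
  obtain ⟨C, hC0, hC⟩ := hom_bd hk hF hom
  have ha := aF_pos hk
  -- the limits of the truncations
  have hB : ∀ K : ℕ, Tendsto (fun T => (2 * δ T) ^ (k ^ 2) / T * ∫ t in D T, za (δ T) 0 t ^ (2 * k) *
      gk hF hC0 hk hC K (fun j => zc (δ T) (h j) t / zc (δ T) 0 t)) atTop
      (𝓝 (aF k * ∫ ω, gk hF hC0 hk hC K (fun j => Complex.exp (lgv k h ω j)) ∂PG)) :=
    fun K => by
      have h1 := hS 0 h0S n h (fun j => by rw [zero_add]; exact hhS j) (gk hF hC0 hk hC K)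
      simp_rw [zero_add] at h1
      exact h1
  have hE : ∀ K : ℕ, Tendsto (fun T => C * ∑ i, ((2 * δ T) ^ (k ^ 2) / T * ∫ t in D T, za (δ T) (h i) t ^ (2 * k) *
      ps K (zc (δ T) 0 t / zc (δ T) (h i) t))) atTop
      (𝓝 (C * ∑ i, (aF k * ∫ ω, ps1 K (fun j => Complex.exp (lgv k (fun _ : Fin 1 => 0 - h i) ω j)) ∂PG))) :=
    fun K => (tendsto_finsetSum _ fun i _ => by
      have h1 := hS (h i) (hhS i) 1 (fun _ => 0 - h i) (fun _ => by rw [add_sub_cancel]; exact h0S) (ps1 K)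
      simp_rw [add_sub_cancel] at h1
      exact h1).const_mul C
  have hE0 : Tendsto (fun K : ℕ => C * ∑ i, (aF k * ∫ ω, ps1 K (fun j => Complex.exp (lgv k (fun _ : Fin 1 => 0 - h i) ω j)) ∂PG)) atTop (𝓝 0) := by
    have h1 : Tendsto (fun K : ℕ => C * ∑ i, (aF k * ∫ ω, ps1 K (fun j => Complex.exp (lgv k (fun _ : Fin 1 => 0 - h i) ω j)) ∂PG)) atTop
        (𝓝 (C * ∑ _i : Fin n, (aF k * 0))) := (tendsto_finsetSum _ fun i _ => (ps1_lim k _).const_mul _).const_mul C
    simpa using h1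
  -- the limit of the limits
  obtain ⟨g, hg1, hg2, hg3⟩ := lim_int hk h hF hC0 hC
  have hL : Tendsto (fun K : ℕ => aF k * ∫ ω, gk hF hC0 hk hC K (fun j => Complex.exp (lgv k h ω j)) ∂PG) atTop
      (𝓝 (aF k * ∫ ω, F (fun j => Complex.exp (lgv k h ω j)) ∂PG)) := by
    refine Tendsto.const_mul _ ?_
    refine tendsto_integral_of_dominated_convergence g (fun K => ?_) hg1 (fun K => ?_) (Eventually.of_forall fun ω => ?_)
    · have co : Continuous (fun v : EE (Fin n) => v.ofLp) := PiLp.continuous_ofLp 2 (fun _ : Fin n => ℂ)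
      have cc : Continuous (fun v : EE (Fin n) => gk hF hC0 hk hC K (fun j => Complex.exp (v.ofLp j))) :=
        (gk hF hC0 hk hC K).continuous.comp (continuous_pi fun j => Complex.continuous_exp.comp ((continuous_apply j).comp co))
      exact (cc.measurable.comp_aemeasurable (lgv_meas k h)).aestronglyMeasurable
    · filter_upwards [hg2] with ω hω
      show ‖F (fun j => Complex.exp (lgv k h ω j)) * ct K (fun j => Complex.exp (lgv k h ω j))‖ ≤ g ω
      rw [norm_mul, Real.norm_eq_abs, Real.norm_of_nonneg (ct_nn _ _)]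
      exact (mul_le_of_le_one_right (abs_nonneg _) (ct_le _ _)).trans hω
    · obtain ⟨K0, hK0⟩ := exists_nat_ge ‖fun j => Complex.exp (lgv k h ω j)‖
      refine tendsto_const_nhds.congr' ?_
      filter_upwards [eventually_ge_atTop K0] with K hK
      have h1 : (K0 : ℝ) ≤ K := by exact_mod_cast hK
      show F (fun j => Complex.exp (lgv k h ω j)) = F (fun j => Complex.exp (lgv k h ω j)) * ct K (fun j => Complex.exp (lgv k h ω j))
      rw [ct_one (by linarith), mul_one]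
  refine three_eps fun ε hε => ?_
  rw [Metric.tendsto_nhds] at hL
  obtain ⟨K, hK1, hK2⟩ := ((hE0.eventually (gt_mem_nhds hε)).and (hL ε hε)).exists
  rw [Real.dist_eq] at hK2
  refine ⟨_, _, _, _, hB K, hE K, hK1, hK2, ?_⟩
  filter_upwards [pos_path hδL, hδ.eventually (gt_mem_nhds (show (0:ℝ) < 1 / 2 by norm_num)), eventually_gt_atTop 0] with T hd hd2 hT
  obtain ⟨c, hc⟩ : ∃ c : ℝ, c = (2 * δ T) ^ (k ^ 2) / T := ⟨_, rfl⟩
  have hc0 : 0 ≤ c := by rw [hc]; positivity
  rw [← hc]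
  have cz : ∀ u, Continuous (zc (δ T) u) := zc_cont hd2
  have ca : ∀ u, Continuous fun t => za (δ T) u t ^ (2 * k) := fun u => (za_cont hd2 u).rpow_const fun t => Or.inr (by positivity)
  have ia : ∀ u, IntegrableOn (fun t => za (δ T) u t ^ (2 * k)) (D T) := fun u =>
    ((ca u).continuousOn.integrableOn_compact isCompact_Icc).mono_set (hD T).2
  have i1 : IntegrableOn (fun t => F (fun j => zc (δ T) (h j) t)) (D T) :=
    ((hF.comp (continuous_pi fun j => cz (h j))).continuousOn.integrableOn_compact isCompact_Icc).mono_set (hD T).2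
  have mr : Measurable fun t => fun j => zc (δ T) (h j) t / zc (δ T) 0 t := measurable_pi_lambda _ fun j => (cz (h j)).measurable.div (cz 0).measurable
  have i2 : IntegrableOn (fun t => za (δ T) 0 t ^ (2 * k) * gk hF hC0 hk hC K (fun j => zc (δ T) (h j) t / zc (δ T) 0 t)) (D T) := by
    refine ((ia 0).mul_const (C * ((K : ℝ) + 1) ^ (2 * k))).mono (((ca 0).measurable.mul ((gk hF hC0 hk hC K).continuous.measurable.comp mr)).aestronglyMeasurable)
      (Eventually.of_forall fun t => ?_)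
    rw [norm_mul, norm_mul]
    refine mul_le_mul_of_nonneg_left ?_ (norm_nonneg _)
    rw [Real.norm_of_nonneg (show 0 ≤ C * ((K : ℝ) + 1) ^ (2 * k) by positivity)]
    refine ((gk hF hC0 hk hC K).norm_coe_le_norm _).trans ?_
    exact BoundedContinuousFunction.norm_ofNormedAddCommGroup_le _ (by positivity) _
  have i3 : ∀ i, IntegrableOn (fun t => za (δ T) (h i) t ^ (2 * k) * ps K (zc (δ T) 0 t / zc (δ T) (h i) t)) (D T) := by
    intro i
    refine Integrable.mono (ia (h i)) (((ca (h i)).measurable.mul ((ps K).continuous.measurable.comp ((cz 0).measurable.div (cz (h i)).measurable))).aestronglyMeasurable)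
      (Eventually.of_forall fun t => ?_)
    rw [norm_mul, Real.norm_of_nonneg (ps_nn _ _)]
    exact mul_le_of_le_one_right (norm_nonneg _) (ps_le _ _)
  rw [← mul_sub, ← integral_sub i1 i2, abs_mul, abs_of_nonneg hc0, ← Finset.mul_sum, ← integral_finsetSum _ fun i _ => i3 i, ← mul_assoc, mul_comm C c,
    mul_assoc, ← integral_const_mul]
  refine mul_le_mul_of_nonneg_left ?_ hc0
  rw [← Real.norm_eq_abs]
  refine norm_integral_le_of_norm_le ((integrable_finsetSum _ fun i _ => i3 i).const_mul C) (ae_restrict_of_ae ?_)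
  have hall : ∀ᵐ t : ℝ, ∀ j, riemannZeta (1 / 2 + δ T + ((t + h j * δ T : ℝ) : ℂ) * Complex.I) ≠ 0 := by
    rw [ae_all_iff]
    exact fun j => zeros_ae (δ T) (h j * δ T)
  filter_upwards [zeros_ae (δ T) (0 * δ T), hall] with t z0 z1
  have y0 : zc (δ T) 0 t ≠ 0 := z0
  have y1 : ∀ j, zc (δ T) (h j) t ≠ 0 := z1
  obtain ⟨v, hv⟩ : ∃ v : Fin n → ℂ, v = fun j => zc (δ T) (h j) t / zc (δ T) 0 t := ⟨_, rfl⟩
  have eF : F (fun j => zc (δ T) (h j) t) = za (δ T) 0 t ^ (2 * k) * F v := by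
    rw [← zc_norm, ← hom, hv]
    congr 1
    funext j
    rw [mul_div_cancel₀ _ y0]
  rw [← hv, eF]
  show ‖za (δ T) 0 t ^ (2 * k) * F v - za (δ T) 0 t ^ (2 * k) * (F v * ct K v)‖ ≤ _
  have e2 : za (δ T) 0 t ^ (2 * k) * F v - za (δ T) 0 t ^ (2 * k) * (F v * ct K v) = za (δ T) 0 t ^ (2 * k) * F v * (1 - ct K v) := by ring
  have hz : 0 ≤ za (δ T) 0 t := za_nonneg _ _ _
  rw [e2, norm_mul, norm_mul, Real.norm_of_nonneg (Real.rpow_nonneg hz _), Real.norm_of_nonneg (by linarith [ct_le (K : ℝ) v] : 0 ≤ 1 - ct K v),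
    Real.norm_eq_abs]
  have hsum : 0 ≤ ∑ i, za (δ T) (h i) t ^ (2 * k) * ps K (zc (δ T) 0 t / zc (δ T) (h i) t) :=
    Finset.sum_nonneg fun i _ => mul_nonneg (Real.rpow_nonneg (za_nonneg _ _ _) _) (ps_nn _ _)
  rcases le_or_gt ‖v‖ K with hvK | hvK
  · rw [ct_one hvK, sub_self, mul_zero]
    exact mul_nonneg hC0 hsum
  · -- the largest coordinate
    have hex : ∃ i, ‖v‖ = ‖v i‖ := by
      by_contra hcon
      push Not at hcon
      have h1 : ‖v‖ < ‖v‖ := by
        have h2 : 0 < ‖v‖ := lt_of_le_of_lt (Nat.cast_nonneg K) hvK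
        refine (pi_norm_lt_iff h2).mpr fun i => ?_
        exact lt_of_le_of_ne (norm_le_pi_norm v i) (hcon i).symm
      exact lt_irrefl _ h1
    obtain ⟨i, hi⟩ := hex
    have e3 : za (δ T) 0 t * ‖v i‖ = za (δ T) (h i) t := by
      rw [hv, ← zc_norm, ← zc_norm]
      simp only
      rw [norm_div, mul_div_cancel₀ _ (norm_ne_zero_iff.mpr y0)]
    have hps : ps K (zc (δ T) 0 t / zc (δ T) (h i) t) = 1 := by
      refine ps_one ?_
      have e4 : ‖zc (δ T) 0 t / zc (δ T) (h i) t‖ = ‖v‖⁻¹ := by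
        rw [hi, hv]
        simp only
        rw [norm_div, norm_div, inv_div]
      rw [e4, mul_inv_le_iff₀ (lt_of_le_of_lt (Nat.cast_nonneg K) hvK), one_mul]
      exact hvK.le
    calc za (δ T) 0 t ^ (2 * k) * |F v| * (1 - ct K v) ≤ za (δ T) 0 t ^ (2 * k) * |F v| * 1 :=
          mul_le_mul_of_nonneg_left (by linarith [ct_nn (K : ℝ) v]) (mul_nonneg (Real.rpow_nonneg hz _) (abs_nonneg _))
      _ ≤ za (δ T) 0 t ^ (2 * k) * (C * ‖v‖ ^ (2 * k)) := by
          rw [mul_one]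
          exact mul_le_mul_of_nonneg_left (hC v) (Real.rpow_nonneg hz _)
      _ = C * (za (δ T) 0 t * ‖v i‖) ^ (2 * k) := by
          rw [hi, Real.mul_rpow hz (norm_nonneg _)]
          ring
      _ = C * (za (δ T) (h i) t ^ (2 * k) * ps K (zc (δ T) 0 t / zc (δ T) (h i) t)) := by rw [e3, hps, mul_one]
      _ ≤ C * ∑ i, za (δ T) (h i) t ^ (2 * k) * ps K (zc (δ T) 0 t / zc (δ T) (h i) t) := by
          refine mul_le_mul_of_nonneg_left ?_ hC0
          exact Finset.single_le_sum (f := fun i => za (δ T) (h i) t ^ (2 * k) * ps K (zc (δ T) 0 t / zc (δ T) (h i) t))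
            (fun i _ => mul_nonneg (Real.rpow_nonneg (za_nonneg _ _ _) _) (ps_nn _ _)) (Finset.mem_univ i)

end Pool.Agent.X111.HO
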