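import Pool.Agent.X111.FL.Hom

set_option autoImplicit false
set_option linter.unusedSectionVars false

/-! The joint law of the ratios of values of zeta on a line near the critical line, under the moment measure, on subsets. -/

namespace Pool.Agent.X111.HO

open MeasureTheory ProbabilityTheory Filter Topology
open Pool.Agent.Y755
open Pool.Agent.Y753.NL
open Pool.Agent.Y753.SHR
open Pool.Agent.H306R2 (aF aF_pos)
open Pool.Agent.X111.JD (zc zc_norm zc_cont dens_cont)
open Pool.Agent.X111.FL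

/-- the moment measure on a set -/
noncomputable def PD (k : ℝ) (δ : ℝ → ℝ) (b : ℝ) (D : ℝ → Set ℝ) (T : ℝ) : Measure ℝ :=
  (volume.restrict (D T)).withDensity fun t => ENNReal.ofReal ((2 * δ T) ^ (k ^ 2) / T * za (δ T) b t ^ (2 * k))

lemma PD_fin {k : ℝ} (hk : 0 < k) {δ : ℝ → ℝ} {T : ℝ} (hδ : δ T < 1 / 2) (b : ℝ) {D : ℝ → Set ℝ} (hD : D T ⊆ Set.Icc 0 T) : IsFiniteMeasure (PD k δ b D T) := by
  unfold PD
  refine isFiniteMeasure_withDensity_ofReal ?_
  exact ((((dens_cont hk hδ _ b).continuousOn.integrableOn_compact isCompact_Icc).mono_set hD).2)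

lemma PD_integral {E : Type*} [NormedAddCommGroup E] [NormedSpace ℝ E] {k : ℝ} (hk : 0 < k) {δ : ℝ → ℝ} {T : ℝ} (hδ : δ T < 1 / 2)
    (hδ0 : 0 < δ T) (hT : 0 < T) (b : ℝ) (D : ℝ → Set ℝ) (F : ℝ → E) :
    ∫ t, F t ∂(PD k δ b D T) = ((2 * δ T) ^ (k ^ 2) / T) • ∫ t in D T, (za (δ T) b t ^ (2 * k)) • F t := by
  unfold PD
  rw [integral_withDensity_eq_integral_toReal_smul]
  · rw [← integral_smul]
    refine integral_congr_ae (Eventually.of_forall fun t => ?_)
    show (ENNReal.ofReal _).toReal • F t = ((2 * δ T) ^ (k ^ 2) / T) • ((za (δ T) b t ^ (2 * k)) • F t)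
    rw [ENNReal.toReal_ofReal (by have := za_nonneg (δ T) b t; positivity), smul_smul]
  · exact (dens_cont hk hδ _ b).measurable.ennreal_ofReal
  · exact Eventually.of_forall fun t => ENNReal.ofReal_lt_top

lemma PD_integrable {k : ℝ} (hk : 0 < k) {δ : ℝ → ℝ} {T : ℝ} (hδ : δ T < 1 / 2)
    (hδ0 : 0 < δ T) (hT : 0 < T) (b : ℝ) (D : ℝ → Set ℝ) {F : ℝ → ℝ} (h : IntegrableOn (fun t => za (δ T) b t ^ (2 * k) * F t) (D T)) :
    Integrable F (PD k δ b D T) := by
  unfold PD
  rw [integrable_withDensity_iff_integrable_smul']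
  · have h1 := h.const_mul ((2 * δ T) ^ (k ^ 2) / T)
    refine h1.congr (Eventually.of_forall fun t => ?_)
    show _ = (ENNReal.ofReal _).toReal • F t
    rw [ENNReal.toReal_ofReal (by have := za_nonneg (δ T) b t; positivity), smul_eq_mul]
    ring
  · exact (dens_cont hk hδ _ b).measurable.ennreal_ofReal
  · exact Eventually.of_forall fun t => ENNReal.ofReal_lt_top

/-- the joint law, for paths in `(0, 1/2)` -/
theorem lawD {k : ℝ} (hk : 0 < k) {δ : ℝ → ℝ} (hn : ∀ T, 0 < δ T ∧ δ T < 1 / 2) {D : ℝ → Set ℝ}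
    (hD : ∀ T, MeasurableSet (D T) ∧ D T ⊆ Set.Icc 0 T) {w : ℝ → ℝ → ℂ} (hwm : ∀ T, Measurable (w T))
    (hw : ∀ᶠ T in atTop, ∀ u : ℝ, riemannZeta (1 / 2 + δ T + (u : ℂ) * Complex.I) ≠ 0 →
        Complex.exp (w T u) = riemannZeta (1 / 2 + δ T + (u : ℂ) * Complex.I)) (b : ℝ) {n : ℕ} (h : Fin n → ℝ)
    (hm : ∀ (N : ℕ) (p q : Fin n → ℕ), 0 < N → ((∑ j, p j : ℕ) : ℝ) < k * N → ((∑ j, q j : ℕ) : ℝ) < k * N →
      Tendsto (fun T : ℝ => (((2 * δ T) ^ (k ^ 2) / T : ℝ) : ℂ) *
          ∫ t in D T, zr (w T) (δ T) (kv k N p) (fun i => b + pv h p i) t * (starRingEnd ℂ) (zr (w T) (δ T) (kv k N q) (fun i => b + pv h q i) t)) atTop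
          (𝓝 ((aF k : ℂ) * ∏ j, ∏ i, (1 + Complex.I * ((pv h p j - pv h q i : ℝ) : ℂ) / 2) ^ (-((kv k N p j * kv k N q i : ℝ) : ℂ)))))
    (G : BoundedContinuousFunction (Fin n → ℂ) ℝ) :
    Tendsto (fun T => (2 * δ T) ^ (k ^ 2) / T * ∫ t in D T, za (δ T) b t ^ (2 * k) * G (fun j => zc (δ T) (b + h j) t / zc (δ T) b t)) atTop
      (𝓝 (aF k * ∫ ω, G (fun j => Complex.exp (lgv k h ω j)) ∂PG)) := by
  obtain ⟨X, hX⟩ : ∃ X : ℝ → ℝ → Fin n → ℂ, X = fun T t j => w T (t + (b + h j) * δ T) - w T (t + b * δ T) := ⟨_, rfl⟩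
  have hXm : ∀ T, Measurable (X T) := by
    intro T
    rw [hX]
    have h1 := hwm T
    exact measurable_pi_lambda _ fun j => (h1.comp (measurable_id.add_const _)).sub (h1.comp (measurable_id.add_const _))
  -- the values of zeta
  have hval : ∀ᶠ T in atTop, ∀ᵐ t : ℝ, Complex.exp (w T (t + b * δ T)) = zc (δ T) b t ∧ (∀ j, Complex.exp (w T (t + (b + h j) * δ T)) = zc (δ T) (b + h j) t) ∧
      zc (δ T) b t ≠ 0 := by
    filter_upwards [hw] with T hw
    have hall : ∀ᵐ t : ℝ, ∀ j, riemannZeta (1 / 2 + δ T + ((t + (b + h j) * δ T : ℝ) : ℂ) * Complex.I) ≠ 0 := by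
      rw [ae_all_iff]
      exact fun j => zeros_ae (δ T) ((b + h j) * δ T)
    filter_upwards [zeros_ae (δ T) (b * δ T), hall] with t z0 z1
    exact ⟨hw _ z0, fun j => hw _ (z1 j), z0⟩
  have hre : ∀ T t u, Complex.exp (w T (t + u * δ T)) = zc (δ T) u t → Real.exp ((w T (t + u * δ T)).re) = za (δ T) u t := by
    intro T t u h
    rw [← zc_norm, ← h, Complex.norm_exp]
  have hlaw := lawv (P := fun T => PD k δ b D T) (fun T => PD_fin hk (hn T).2 b (hD T).2) hXm hk (aF_pos hk) (ρ := rl k h) (rl_int k h) ?_ ?_ G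
  · have e0 := rl_integral k h (F := fun v : Fin n → ℂ => G (fun j => Complex.exp (v j)))
      (G.continuous.comp (continuous_pi fun j => Complex.continuous_exp.comp (continuous_apply j)))
    rw [e0] at hlaw
    refine hlaw.congr' ?_
    filter_upwards [hval, eventually_gt_atTop 0] with T h1 hT
    rw [PD_integral hk (hn T).2 (hn T).1 hT b D, smul_eq_mul]
    congr 1
    refine integral_congr_ae (ae_restrict_of_ae ?_)
    filter_upwards [h1] with t ht
    show za (δ T) b t ^ (2 * k) * G (fun j => Complex.exp (X T t j)) = za (δ T) b t ^ (2 * k) * G (fun j => zc (δ T) (b + h j) t / zc (δ T) b t)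
    rw [hX]
    simp only
    congr 2
    funext j
    rw [Complex.exp_sub, ht.1, ht.2.1 j]
  · -- integrability
    intro N p hN hp
    have hN0 : (0:ℝ) < N := by exact_mod_cast hN
    filter_upwards [hval, eventually_gt_atTop 0] with T h1 hT
    refine PD_integrable hk (hn T).2 (hn T).1 hT b D ?_
    have hpk : ∑ j, (p j : ℝ) / N < k := by
      rw [← Finset.sum_div, div_lt_iff₀ hN0]
      push_cast at hp
      exact hp
    have hc : Continuous fun t => za (δ T) b t ^ (2 * k - 2 * ∑ j, (p j : ℝ) / N) * ∏ j, za (δ T) (b + h j) t ^ (2 * ((p j : ℝ) / N)) :=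
      ((za_cont (hn T).2 b).rpow_const fun t => Or.inr (by linarith)).mul
        (continuous_finsetProd _ fun j _ => (za_cont (hn T).2 (b + h j)).rpow_const fun t => Or.inr (by positivity))
    refine ((hc.continuousOn.integrableOn_compact isCompact_Icc).mono_set (hD T).2).congr (ae_restrict_of_ae ?_)
    filter_upwards [h1] with t ht
    have f0 := hre T t b ht.1
    have f1 := fun j => hre T t (b + h j) (ht.2.1 j)
    rw [hX]
    simp only
    rw [Complex.norm_exp, ← f0]
    simp_rw [← f1]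
    rw [← Real.exp_mul, ← Real.exp_mul]
    simp_rw [← Real.exp_mul]
    rw [← Real.exp_sum, ← Real.exp_add, ← Real.exp_nat_mul, ← Real.exp_add]
    congr 1
    have e1 : (∑ j, (p j : ℂ) / N * (w T (t + (b + h j) * δ T) - w T (t + b * δ T))).re =
        ∑ j, (p j : ℝ) / N * ((w T (t + (b + h j) * δ T)).re - (w T (t + b * δ T)).re) := by
      rw [Complex.re_sum]
      refine Finset.sum_congr rfl fun j _ => ?_
      have : ((p j : ℂ) / N) = ((p j / N : ℝ) : ℂ) := by push_cast; rfl
      rw [this, Complex.re_ofReal_mul, Complex.sub_re]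
    rw [e1]
    have e2 : ∑ j, (w T (t + (b + h j) * δ T)).re * (2 * ((p j : ℝ) / N)) = 2 * ∑ j, (p j : ℝ) / N * (w T (t + (b + h j) * δ T)).re := by
      rw [Finset.mul_sum]
      exact Finset.sum_congr rfl fun j _ => by ring
    have e3 : ∑ j, (p j : ℝ) / N * ((w T (t + (b + h j) * δ T)).re - (w T (t + b * δ T)).re) =
        ∑ j, (p j : ℝ) / N * (w T (t + (b + h j) * δ T)).re - (∑ j, (p j : ℝ) / N) * (w T (t + b * δ T)).re := by
      rw [Finset.sum_mul, ← Finset.sum_sub_distrib]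
      exact Finset.sum_congr rfl fun j _ => by ring
    rw [e2, e3]
    push_cast
    ring
  · -- the mixed moments
    intro N p q hN hp hq
    have h1 := hm N p q hN hp hq
    rw [prod_kv, ← rl_mixed] at h1
    refine h1.congr' ?_
    filter_upwards [hval, eventually_gt_atTop 0] with T h1 hT
    rw [PD_integral hk (hn T).2 (hn T).1 hT b D, Complex.real_smul]
    congr 1
    refine integral_congr_ae (ae_restrict_of_ae ?_)
    filter_upwards [h1] with t ht
    have f0 := hre T t b ht.1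
    show zr (w T) (δ T) (kv k N p) (fun i => b + pv h p i) t * (starRingEnd ℂ) (zr (w T) (δ T) (kv k N q) (fun i => b + pv h q i) t) =
      (za (δ T) b t ^ (2 * k)) • ev N p q (X T t)
    have ez : ∀ p : Fin n → ℕ, zr (w T) (δ T) (kv k N p) (fun i => b + pv h p i) t =
        Complex.exp (k * w T (t + b * δ T) + ∑ j, (p j : ℂ) / N * (w T (t + (b + h j) * δ T) - w T (t + b * δ T))) := by
      intro p
      unfold zr
      rw [← Complex.exp_sum, kv_sum k h N p fun u => w T (t + (b + u) * δ T), add_zero]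
      congr 1
      have e5 : ∑ j, (p j : ℂ) / N * (w T (t + (b + h j) * δ T) - w T (t + b * δ T)) =
          ∑ j, (p j : ℂ) / N * w T (t + (b + h j) * δ T) - (∑ j, (p j : ℂ) / N) * w T (t + b * δ T) := by
        rw [Finset.sum_mul, ← Finset.sum_sub_distrib]
        exact Finset.sum_congr rfl fun j _ => by ring
      rw [e5]
      push_cast
      ring
    rw [ez, ez, ← f0, ← Real.exp_mul, Complex.real_smul, hX, ev_eq, ← Complex.exp_conj, ← Complex.exp_conj, ← Complex.exp_add, ← Complex.exp_add,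
      Complex.ofReal_exp, ← Complex.exp_add]
    congr 1
    have e2 : (((w T (t + b * δ T)).re : ℝ) : ℂ) = (w T (t + b * δ T) + (starRingEnd ℂ) (w T (t + b * δ T))) / 2 := by
      rw [Complex.add_conj]
      push_cast
      ring
    push_cast
    rw [e2]
    simp only [map_add, map_mul, Complex.conj_ofReal]
    ring


end Pool.Agent.X111.HO
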